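import Pool.Agent.H43.DPC.Targets

/-! Row HOM of the board dpc_modules: homogeneity off the diagonal. -/

open MeasureTheory SchwartzMap Filter Topology
open scoped ENNReal ContDiff

namespace Pool.Agent.H43.DPC

noncomputable section

theorem HOM_diag {d n : ℕ} (t : ℝ) (ht : 0 < t) (y : Fin n → V d) (hy : y ∉ Diag d n) :
    t • y ∉ Diag d n := by
  rintro ⟨i, j, hij, h⟩
  refine hy ⟨i, j, hij, ?_⟩
  rw [Pi.smul_apply, Pi.smul_apply] at h
  exact smul_right_injective _ ht.ne' h

/-- the bumps near a point off the diagonal -/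
theorem HOM_bumps {d n : ℕ} (x : Fin n → V d) (r : ℝ) (hr : 0 < r)
    (hD : ∀ y : Fin n → V d, dist y x ≤ r → y ∉ Diag d n) :
    ∃ f : Fin n → S d, (∀ i z, 0 ≤ f i z) ∧ (∀ i, 0 < f i (x i)) ∧
      (∀ i, tsupport (f i) = Metric.closedBall (x i) r) ∧
      ∀ i j, i ≠ j → Disjoint (tsupport (f i)) (tsupport (f j)) := by
  classical
  let φ : ∀ i, ContDiffBump (x i) := fun i => ⟨r / 2, r, by positivity, by linarith⟩
  refine ⟨fun i => (φ i).hasCompactSupport.toSchwartzMap (φ i).contDiff, ?_, ?_, ?_, ?_⟩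
  · intro i z
    exact (φ i).nonneg
  · intro i
    exact (φ i).pos_of_mem_ball (Metric.mem_ball_self hr)
  · intro i
    exact (φ i).tsupport_eq
  · intro i j hij
    have e : ∀ i, tsupport (((φ i).hasCompactSupport.toSchwartzMap (φ i).contDiff : S d)) =
        Metric.closedBall (x i) r := fun i => (φ i).tsupport_eq
    rw [e i, e j, Set.disjoint_left]
    intro p hp hq
    refine hD (fun l => if l = i ∨ l = j then p else x l) ?_ ⟨i, j, hij, ?_⟩
    · rw [dist_pi_le_iff hr.le]
      intro l
      by_cases hl : l = i ∨ l = j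
      · simp only [if_pos hl]
        rcases hl with h | h
        · rw [h]; exact hp
        · rw [h]; exact hq
      · simp only [if_neg hl, dist_self]
        exact hr.le
    · simp

theorem HOM (hINV : T_INV) (hWSP : T_WSP) : T_HOM := by
  intro d μ a hself n s hC t ht x hx
  by_contra hne
  set c : ℝ := t ^ (-((n : ℝ) * a)) with hc
  have hopen : IsOpen (Diag d n)ᶜ := (hWSP.isClosed_Diag d n).isOpen_compl
  have hs : ContinuousOn s (Diag d n)ᶜ := hC.smooth.continuousOn
  have hst : ContinuousOn (fun y => s (t • y)) (Diag d n)ᶜ :=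
    hs.comp (continuous_const_smul t).continuousOn (fun y hy => HOM_diag t ht y hy)
  have hDc : ContinuousOn (fun y => s (t • y) - c * s y) (Diag d n)ᶜ :=
    hst.sub (continuousOn_const.mul hs)
  have hDx : s (t • x) - c * s x ≠ 0 := sub_ne_zero.mpr hne
  -- the neighbourhood
  obtain ⟨ε, hε, hU⟩ : ∃ ε > 0, ∀ y : Fin n → V d, dist y x < ε →
      y ∉ Diag d n ∧ 0 < (s (t • y) - c * s y) * (s (t • x) - c * s x) := by
    have h1 : ∀ᶠ y in 𝓝 x, y ∈ (Diag d n)ᶜ := hopen.mem_nhds hx
    have h2 : ContinuousAt (fun y => (s (t • y) - c * s y) * (s (t • x) - c * s x)) x :=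
      (hDc.continuousAt (hopen.mem_nhds hx)).mul continuousAt_const
    have h3 : ∀ᶠ y in 𝓝 x, 0 < (s (t • y) - c * s y) * (s (t • x) - c * s x) := by
      refine h2.eventually (lt_mem_nhds ?_)
      exact mul_self_pos.mpr hDx
    obtain ⟨ε, hε, h4⟩ := Metric.eventually_nhds_iff.mp (h1.and h3)
    exact ⟨ε, hε, fun y hy => h4 hy⟩
  set r : ℝ := ε / 2 with hr
  have hr0 : 0 < r := by positivity
  have hrε : r < ε := by rw [hr]; linarith
  obtain ⟨f, hf0, hfx, hft, hfd⟩ := HOM_bumps x r hr0 (fun y hy => (hU y (hy.trans_lt hrε)).1)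
  -- the product
  set Φ : (Fin n → V d) → ℝ := fun y => ∏ i, f i (y i) with hΦ
  have hΦc : Continuous Φ := by
    rw [hΦ]
    exact continuous_finset_prod _ fun i _ => (f i).continuous.comp (continuous_apply i)
  set K : Set (Fin n → V d) := Set.pi Set.univ (fun i => Metric.closedBall (x i) r) with hK
  have hKc : IsCompact K := isCompact_univ_pi fun i => isCompact_closedBall _ _
  have hKU : ∀ y ∈ K, dist y x ≤ r := by
    intro y hy
    rw [dist_pi_le_iff hr0.le]
    intro i
    exact hy i (Set.mem_univ i)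
  have hKD : K ⊆ (Diag d n)ᶜ := fun y hy => (hU y ((hKU y hy).trans_lt hrε)).1
  have hΦK : ∀ y, Φ y ≠ 0 → y ∈ K := by
    intro y hy i _
    have h1 : f i (y i) ≠ 0 := Finset.prod_ne_zero_iff.mp hy i (Finset.mem_univ i)
    have h2 : y i ∈ tsupport (f i) := subset_tsupport _ h1
    rw [hft i] at h2
    exact h2
  have hΦ0 : ∀ y, 0 ≤ Φ y := fun y => Finset.prod_nonneg fun i _ => hf0 i _
  have hcont : ∀ g : (Fin n → V d) → ℝ, ContinuousOn g (Diag d n)ᶜ →
      Continuous (fun y => g y * Φ y) ∧ HasCompactSupport (fun y => g y * Φ y) := by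
    intro g hg
    have hsub : Function.support (fun y => g y * Φ y) ⊆ K := by
      intro y hy
      exact hΦK y (right_ne_zero_of_mul hy)
    have hts : tsupport (fun y => g y * Φ y) ⊆ K := closure_minimal hsub hKc.isClosed
    refine ⟨?_, hKc.of_isClosed_subset (isClosed_tsupport _) hts⟩
    exact ContinuousOn.continuous_of_tsupport_subset (hg.mul hΦc.continuousOn) hopen
      (hts.trans hKD)
  have hzero : ∀ g : (Fin n → V d) → ℝ,
      ∫ y in (Diag d n)ᶜ, g y * Φ y = ∫ y, g y * Φ y := by
    intro g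
    refine setIntegral_eq_integral_of_forall_compl_eq_zero ?_
    intro y hy
    have h1 : Φ y = 0 := by
      by_contra h
      exact hy (hKD (hΦK y h))
    rw [h1, mul_zero]
  have hfc : ∀ i, HasCompactSupport (f i) := by
    intro i
    rw [HasCompactSupport, hft i]
    exact isCompact_closedBall _ _
  -- the moment of `f`
  have hm1 : moment μ f = ∫ y, s y * Φ y := by
    rw [hC.eq f hfc hfd]
    exact hzero s
  -- the moment of the dilated functions
  set τ : ℝˣ := Units.mk0 t ht.ne' with hτ
  have hτt : (τ : ℝ) = t := rfl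
  have hdil : ∀ i z, dil τ (f i) z = f i (t⁻¹ • z) := by
    intro i z
    rfl
  have hts : ∀ i, tsupport (dil τ (f i)) ⊆ (fun z => t⁻¹ • z) ⁻¹' tsupport (f i) := by
    intro i
    refine closure_minimal ?_ ((isClosed_tsupport _).preimage (continuous_const_smul _))
    intro z hz
    exact subset_tsupport (f i) hz
  have hdc : ∀ i, HasCompactSupport (dil τ (f i)) := by
    intro i
    have h1 : IsCompact ((fun z : V d => t⁻¹ • z) ⁻¹' tsupport (f i)) := by
      have h2 : (fun z : V d => t⁻¹ • z) ⁻¹' tsupport (f i) = (fun z => t • z) '' tsupport (f i) := by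
        ext z
        constructor
        · intro hz
          exact ⟨t⁻¹ • z, hz, by simp only [smul_smul, mul_inv_cancel₀ ht.ne', one_smul]⟩
        · rintro ⟨w, hw, rfl⟩
          have e3 : t⁻¹ • t • w = w := by
            rw [smul_smul, inv_mul_cancel₀ ht.ne', one_smul]
          show t⁻¹ • t • w ∈ tsupport (f i)
          rw [e3]
          exact hw
      rw [h2]
      exact (hfc i).image (continuous_const_smul t)
    exact h1.of_isClosed_subset (isClosed_tsupport _) (hts i)
  have hdd : ∀ i j, i ≠ j → Disjoint (tsupport (dil τ (f i))) (tsupport (dil τ (f j))) := by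
    intro i j hij
    rw [Set.disjoint_left]
    intro z hz hz'
    exact Set.disjoint_left.mp (hfd i j hij) (hts i hz) (hts j hz')
  have hm2 : moment μ (fun i => dil τ (f i)) = ∫ y, s y * Φ (t⁻¹ • y) := by
    rw [hC.eq (fun i => dil τ (f i)) hdc hdd]
    have e1 : (fun y : Fin n → V d => s y * ∏ i, dil τ (f i) (y i)) =
        fun y => s y * Φ (t⁻¹ • y) := by
      funext y
      refine congrArg (fun u => s y * u) ?_
      exact Finset.prod_congr rfl fun i _ => hdil i (y i)
    rw [e1]
    refine setIntegral_eq_integral_of_forall_compl_eq_zero ?_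
    intro y hy
    have h1 : Φ (t⁻¹ • y) = 0 := by
      by_contra h
      have h2 := hKD (hΦK _ h)
      have h3 := HOM_diag t ht _ h2
      rw [smul_smul, mul_inv_cancel₀ ht.ne', one_smul] at h3
      exact hy h3
    rw [h1, mul_zero]
  -- change of variables
  have hcv : ∫ y, s (t • y) * Φ y = (t ^ (n * d))⁻¹ * ∫ y, s y * Φ (t⁻¹ • y) := by
    have h1 := Measure.integral_comp_smul (volume : Measure (Fin n → V d))
      (fun y => s y * Φ (t⁻¹ • y)) t
    have e1 : ∀ y : Fin n → V d, t⁻¹ • t • y = y := by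
      intro y
      rw [smul_smul, inv_mul_cancel₀ ht.ne', one_smul]
    simp only [e1] at h1
    rw [h1, smul_eq_mul, abs_of_pos (by positivity)]
    have e2 : Module.finrank ℝ (Fin n → V d) = n * d := by
      rw [Module.finrank_pi_fintype]
      simp
    rw [e2]
  have hmd := hINV.moment_dil d μ a hself n τ (by rw [hτt]; exact ht) f
  rw [hm2, hm1, hτt] at hmd
  rw [hmd] at hcv
  have hexp : (t ^ (n * d))⁻¹ * (((t ^ ((d : ℝ) - a)) ^ n) * ∫ y, s y * Φ y) =
      c * ∫ y, s y * Φ y := by
    rw [← mul_assoc]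
    refine congrArg (fun u => u * ∫ y, s y * Φ y) ?_
    rw [hc, ← Real.rpow_natCast t (n * d), ← Real.rpow_neg ht.le, ← Real.rpow_natCast
      (t ^ ((d : ℝ) - a)) n, ← Real.rpow_mul ht.le, ← Real.rpow_add ht]
    refine congrArg (fun u => t ^ u) ?_
    push_cast
    ring
  rw [hexp] at hcv
  -- the integral of `D Φ` vanishes
  obtain ⟨c1, k1⟩ := hcont _ hst
  obtain ⟨c2, k2⟩ := hcont _ hs
  have hint : ∫ y, (s (t • y) - c * s y) * Φ y = 0 := by
    have e1 : (fun y => (s (t • y) - c * s y) * Φ y) =
        fun y => s (t • y) * Φ y - c * (s y * Φ y) := by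
      funext y
      ring
    rw [e1, integral_sub (c1.integrable_of_hasCompactSupport k1)
      ((c2.integrable_of_hasCompactSupport k2).const_mul c), integral_const_mul, hcv, sub_self]
  -- but it does not
  obtain ⟨c3, k3⟩ := hcont (fun y => (s (t • y) - c * s y) * (s (t • x) - c * s x))
    (hDc.mul continuousOn_const)
  have hpos := c3.integral_pos_of_hasCompactSupport_nonneg_nonzero (μ := volume) (x := x) k3
    (by
      intro y
      by_cases h : Φ y = 0
      · simp only [h, mul_zero]
        exact le_refl _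
      · have h1 := (hU y ((hKU y (hΦK y h)).trans_lt hrε)).2
        exact mul_nonneg h1.le (hΦ0 y))
    (by
      have h1 : Φ x ≠ 0 := Finset.prod_ne_zero_iff.mpr fun i _ => (hfx i).ne'
      exact mul_ne_zero (mul_ne_zero hDx hDx) h1)
  have e3 : ∫ y, (s (t • y) - c * s y) * (s (t • x) - c * s x) * Φ y =
      (s (t • x) - c * s x) * ∫ y, (s (t • y) - c * s y) * Φ y := by
    rw [← integral_const_mul]
    refine integral_congr_ae (Eventually.of_forall fun y => ?_)
    show (s (t • y) - c * s y) * (s (t • x) - c * s x) * Φ y =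
      (s (t • x) - c * s x) * ((s (t • y) - c * s y) * Φ y)
    ring
  rw [e3, hint, mul_zero] at hpos
  exact lt_irrefl _ hpos

end

end Pool.Agent.H43.DPC
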